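import Mathlib

namespace Pool.Agent.Results.MP_81ec8a_co.NoLinearThreshold

/-- The number of arcs of the digraph with arc relation `A`. -/
noncomputable def numArcs {V : Type*} (A : V → V → Prop) : ℕ :=
  Set.ncard {p : V × V | A p.1 p.2}

/-- `A` contains the directed path on `m` vertices as a (not necessarily induced) subdigraph. -/
def ContainsPath {V : Type*} (A : V → V → Prop) (m : ℕ) : Prop :=
  ∃ v : Fin m → V, Function.Injective v ∧
    ∀ i j : Fin m, (j : ℕ) = (i : ℕ) + 1 → A (v i) (v j)

/-- `T` is one of the digraphs `T_{n,k}`: the vertices split into `k` parts whose sizes differ by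
at most one, and `(u, v)` is an arc exactly when the part of `u` comes before the part of `v`. -/
def IsTuranDigraph (n k : ℕ) (T : Fin n → Fin n → Prop) : Prop :=
  ∃ part : Fin n → Fin k,
    (∀ i j : Fin k, Set.ncard {u | part u = i} ≤ Set.ncard {u | part u = j} + 1) ∧
    ∀ u v, T u v ↔ part u < part v

/-- the counterexample: a complete block on `j` vertices followed by `j` independent sets of
size `s` -/
def Ctr (j s : ℕ) : (Fin j ⊕ Fin j × Fin s) → (Fin j ⊕ Fin j × Fin s) → Prop
  | Sum.inl x, Sum.inl y => x ≠ y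
  | Sum.inl _, Sum.inr _ => True
  | Sum.inr _, Sum.inl _ => False
  | Sum.inr p, Sum.inr q => p.1 < q.1

lemma ctr_path (j s : ℕ) : ¬ ContainsPath (Ctr j s) (2 * j + 1) := by
  rintro ⟨v, hinj, harc⟩
  have step : ∀ d : ℕ, ∀ a b : Fin (2 * j + 1), (b : ℕ) = a + d + 1 → ∀ p, v a = Sum.inr p →
      ∃ q, v b = Sum.inr q ∧ p.1 < q.1 := by
    intro d
    induction d with
    | zero =>
      intro a b hab p hp
      have := harc a b (by omega)
      rw [hp] at this
      match hb : v b, this with
      | Sum.inl y, h => exact absurd h (by simp [Ctr])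
      | Sum.inr q, h => exact ⟨q, rfl, h⟩
    | succ d ih =>
      intro a b hab p hp
      obtain ⟨q, hq, hpq⟩ := ih a ⟨a + d + 1, by omega⟩ rfl p hp
      have := harc ⟨a + d + 1, by omega⟩ b (by simp; omega)
      rw [hq] at this
      match hb : v b, this with
      | Sum.inl y, h => exact absurd h (by simp [Ctr])
      | Sum.inr q', h => exact ⟨q', rfl, hpq.trans h⟩
  have hlt : ∀ a b : Fin (2 * j + 1), a < b → ∀ p q, v a = Sum.inr p → v b = Sum.inr q →
      p.1 < q.1 := by
    intro a b hab p q hp hq
    have hab' : (a : ℕ) < b := hab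
    obtain ⟨q', hq', h⟩ := step (b - a - 1) a b (by omega) p hp
    rw [hq] at hq'
    cases hq'
    exact h
  let φ : (Fin j ⊕ Fin j × Fin s) → Fin j ⊕ Fin j := Sum.map id Prod.fst
  have hφ : Function.Injective (φ ∘ v) := by
    intro a b hab
    simp only [Function.comp, φ] at hab
    rcases ha : v a with x | p
    · rcases hb : v b with y | q
      · rw [ha, hb] at hab
        simp at hab
        apply hinj
        rw [ha, hb, hab]
      · rw [ha, hb] at hab
        simp at hab
    · rcases hb : v b with y | q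
      · rw [ha, hb] at hab
        simp at hab
      · rw [ha, hb] at hab
        simp at hab
        rcases lt_trichotomy a b with h | h | h
        · exact absurd hab (hlt a b h p q ha hb).ne
        · exact h
        · exact absurd hab (hlt b a h q p hb ha).ne'
  have := Fintype.card_le_of_injective _ hφ
  simp at this
  omega

open Classical in
/-- indicator -/
noncomputable def ind (p : Prop) : ℕ := if p then 1 else 0

lemma ind_pos {p : Prop} (h : p) : ind p = 1 := if_pos h

lemma ind_neg {p : Prop} (h : ¬ p) : ind p = 0 := if_neg h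

lemma numArcs_eq_sum {V : Type*} [Fintype V] (A : V → V → Prop) :
    numArcs A = ∑ x : V, ∑ y : V, ind (A x y) := by
  classical
  unfold numArcs ind
  rw [Set.ncard_eq_toFinset_card', ← Fintype.sum_prod_type', Finset.sum_ite, Finset.sum_const,
    Finset.sum_const_zero, smul_eq_mul, mul_one, add_zero]
  congr 1
  ext p
  simp

/-- for a function into a linear order, the pairs split in three classes -/
lemma sum_three {V : Type*} [Fintype V] {α : Type*} [LinearOrder α] (f : V → α) :
    2 * (∑ p : V, ∑ q : V, ind (f p < f q)) + (∑ p : V, ∑ q : V, ind (f p = f q))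
      = Fintype.card V * Fintype.card V := by
  have h1 : (∑ p : V, ∑ q : V, ind (f q < f p)) = ∑ p : V, ∑ q : V, ind (f p < f q) :=
    Finset.sum_comm
  have h2 : (∑ p : V, ∑ q : V, ind (f p < f q)) + (∑ p : V, ∑ q : V, ind (f q < f p))
      + (∑ p : V, ∑ q : V, ind (f p = f q)) = Fintype.card V * Fintype.card V := by
    rw [← Finset.sum_add_distrib, ← Finset.sum_add_distrib]
    have : ∀ p : V, ((∑ q : V, ind (f p < f q)) + (∑ q : V, ind (f q < f p)))
        + (∑ q : V, ind (f p = f q)) = Fintype.card V := by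
      intro p
      rw [← Finset.sum_add_distrib, ← Finset.sum_add_distrib]
      have : ∀ q : V, (ind (f p < f q) + ind (f q < f p)) + ind (f p = f q) = 1 := by
        intro q
        rcases lt_trichotomy (f p) (f q) with h | h | h
        · rw [ind_pos h, ind_neg (not_lt.2 h.le), ind_neg h.ne]
        · rw [ind_neg (not_lt.2 h.ge), ind_neg (not_lt.2 h.le), ind_pos h]
        · rw [ind_pos h, ind_neg (not_lt.2 h.le), ind_neg h.ne']
      rw [Finset.sum_congr rfl fun q _ => this q]
      simp
    rw [Finset.sum_congr rfl fun p _ => this p]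
    simp
  rw [h1] at h2
  omega

lemma sum_eq_one {V : Type*} [Fintype V] (x : V) : (∑ y : V, ind (x = y)) = 1 := by
  rw [Finset.sum_eq_single x, ind_pos rfl]
  · intro b _ hb
    exact ind_neg (Ne.symm hb)
  · simp

lemma sum_lt (j : ℕ) : 2 * (∑ p : Fin j, ∑ q : Fin j, ind (p < q)) + j = j * j := by
  have := sum_three (fun p : Fin j => p)
  simp only [sum_eq_one] at this
  simpa using this

lemma ctr_arcs (j s : ℕ) : 2 * numArcs (Ctr j s) + 2 * j + s * s * j
    = 2 * (j * j) + 2 * (j * j * s) + s * s * (j * j) := by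
  have e1 : (∑ x : Fin j, ∑ y : Fin j, ind (x ≠ y)) + j = j * j := by
    have : ∀ x : Fin j, (∑ y : Fin j, ind (x ≠ y)) + 1 = j := by
      intro x
      have h : (∑ y : Fin j, ind (x ≠ y)) + (∑ y : Fin j, ind (x = y)) = j := by
        rw [← Finset.sum_add_distrib]
        have : ∀ y : Fin j, (ind (x ≠ y) + ind (x = y)) = 1 := by
          intro y
          by_cases h : x = y
          · rw [ind_pos h, ind_neg (not_not.2 h)]
          · rw [ind_pos h, ind_neg h]
        rw [Finset.sum_congr rfl fun q _ => this q]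
        simp
      rwa [sum_eq_one] at h
    calc (∑ x : Fin j, ∑ y : Fin j, ind (x ≠ y)) + j
        = ∑ x : Fin j, ((∑ y : Fin j, ind (x ≠ y)) + 1) := by
          rw [Finset.sum_add_distrib]; simp
      _ = j * j := by rw [Finset.sum_congr rfl fun q _ => this q]; simp
  have e2 : (∑ x : Fin j, ∑ y : Fin j × Fin s, ind True) = j * j * s := by
    rw [ind_pos trivial]
    simp [mul_assoc]
  have e2' : (∑ x : Fin j × Fin s, ∑ y : Fin j, ind False) = 0 := by
    rw [ind_neg (fun h => h)]
    simp
  have e3 : (∑ x : Fin j × Fin s, ∑ y : Fin j × Fin s, ind (x.1 < y.1))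
      = s * s * (∑ p : Fin j, ∑ q : Fin j, ind (p < q)) := by
    rw [Fintype.sum_prod_type]
    have : ∀ p : Fin j, (∑ a : Fin s, ∑ y : Fin j × Fin s, ind (p < y.1))
        = s * s * ∑ q : Fin j, ind (p < q) := by
      intro p
      have : (∑ y : Fin j × Fin s, ind (p < y.1)) = s * ∑ q : Fin j, ind (p < q) := by
        rw [Fintype.sum_prod_type, Finset.mul_sum]
        refine Finset.sum_congr rfl fun q _ => ?_
        simp
      rw [this]
      simp [mul_assoc]
    rw [Finset.mul_sum]
    exact Finset.sum_congr rfl fun p _ => this p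
  have e4 := sum_lt j
  have e0 : numArcs (Ctr j s) = ((∑ x : Fin j, ∑ y : Fin j, ind (x ≠ y))
      + ∑ x : Fin j, ∑ y : Fin j × Fin s, ind True)
      + ((∑ x : Fin j × Fin s, ∑ y : Fin j, ind False)
      + ∑ x : Fin j × Fin s, ∑ y : Fin j × Fin s, ind (x.1 < y.1)) := by
    rw [numArcs_eq_sum, Fintype.sum_sum_type, ← Finset.sum_add_distrib, ← Finset.sum_add_distrib]
    refine congrArg₂ (· + ·) ?_ ?_
    · refine Finset.sum_congr rfl fun x _ => ?_
      rw [Fintype.sum_sum_type]
      rfl
    · refine Finset.sum_congr rfl fun x _ => ?_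
      rw [Fintype.sum_sum_type]
      rfl
  rw [e0, e2, e2', e3]
  generalize (∑ x : Fin j, ∑ y : Fin j, ind (x ≠ y)) = P at e1 ⊢
  generalize (∑ p : Fin j, ∑ q : Fin j, ind (p < q)) = Q at e4 ⊢
  nlinarith

lemma turan_arcs (n k : ℕ) (part : Fin n → Fin k) :
    n * n + 2 * k * numArcs (fun u v : Fin n => part u < part v) ≤ k * (n * n) := by
  set N : Fin k → ℕ := fun i => ∑ u : Fin n, ind (part u = i) with hN
  have h0 : ∑ i, N i = n := by
    simp only [hN]
    rw [Finset.sum_comm]
    simp only [sum_eq_one]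
    simp
  have hcs : n ^ 2 ≤ k * ∑ i, N i ^ 2 := by
    have := sq_sum_le_card_mul_sum_sq (s := Finset.univ) (f := N)
    rw [h0] at this
    simpa using this
  have heq : (∑ u : Fin n, ∑ v : Fin n, ind (part u = part v)) = ∑ i, N i ^ 2 := by
    have e : ∀ i, N i ^ 2 = ∑ u : Fin n, ∑ v : Fin n, ind (part u = i) * ind (part v = i) := by
      intro i
      simp only [hN]
      rw [sq, Finset.sum_mul_sum]
    have e' : ∀ u v : Fin n, ind (part u = part v)
        = ∑ i : Fin k, ind (part u = i) * ind (part v = i) := by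
      intro u v
      rw [Finset.sum_eq_single (part u)]
      · rw [ind_pos rfl, one_mul]
        by_cases h : part u = part v
        · rw [ind_pos h, ind_pos h.symm]
        · rw [ind_neg h, ind_neg (Ne.symm h)]
      · intro b _ hb
        rw [ind_neg (Ne.symm hb), zero_mul]
      · simp
    calc (∑ u : Fin n, ∑ v : Fin n, ind (part u = part v))
        = ∑ u : Fin n, ∑ v : Fin n, ∑ i : Fin k, ind (part u = i) * ind (part v = i) :=
          Finset.sum_congr rfl fun u _ => Finset.sum_congr rfl fun v _ => e' u v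
      _ = ∑ u : Fin n, ∑ i : Fin k, ∑ v : Fin n, ind (part u = i) * ind (part v = i) :=
          Finset.sum_congr rfl fun u _ => Finset.sum_comm
      _ = ∑ i : Fin k, ∑ u : Fin n, ∑ v : Fin n, ind (part u = i) * ind (part v = i) :=
          Finset.sum_comm
      _ = _ := Finset.sum_congr rfl fun i _ => (e i).symm
  have h2 := sum_three part
  rw [heq, Fintype.card_fin] at h2
  have h3 := numArcs_eq_sum (fun u v : Fin n => part u < part v)
  rw [h3]
  generalize (∑ p : Fin n, ∑ q : Fin n, ind (part p < part q)) = Q at h2 ⊢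
  nlinarith

lemma ctr_irrefl (j s : ℕ) (x : Fin j ⊕ Fin j × Fin s) : ¬ Ctr j s x x := by
  rcases x with x | x <;> simp [Ctr]

/-- **No linear threshold.** For every `c` there are `k ≥ 1` and `n ≥ c k` and a loopless digraph
`D` on `n` vertices that contains no directed path on `k + 1` vertices and has strictly more arcs
than every `T_{n,k}` (and such `T_{n,k}` exist). -/
theorem result (c : ℕ) : ∃ k n : ℕ, 1 ≤ k ∧ c * k ≤ n ∧
    (∃ T : Fin n → Fin n → Prop, IsTuranDigraph n k T) ∧
    ∃ D : Fin n → Fin n → Prop, (∀ v, ¬ D v v) ∧ ¬ ContainsPath D (k + 1) ∧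
      ∀ T : Fin n → Fin n → Prop, IsTuranDigraph n k T → numArcs T < numArcs D := by
  classical
  set j := 2 * c ^ 2 + 2 with hj
  set s := 2 * c + 1 with hs
  have hcard : Fintype.card (Fin j ⊕ Fin j × Fin s) = (c + 1) * (2 * j) := by
    simp [hs]; ring
  let e : (Fin j ⊕ Fin j × Fin s) ≃ Fin ((c + 1) * (2 * j)) := Fintype.equivFinOfCardEq hcard
  refine ⟨2 * j, (c + 1) * (2 * j), by omega, by nlinarith, ?_, 
    fun u v => Ctr j s (e.symm u) (e.symm v), ?_, ?_, ?_⟩
  · let e' : Fin ((c + 1) * (2 * j)) ≃ Fin (c + 1) × Fin (2 * j) := finProdFinEquiv.symm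
    refine ⟨fun u v => (e' u).2 < (e' v).2, fun u => (e' u).2, ?_, fun u v => Iff.rfl⟩
    have hc : ∀ i : Fin (2 * j), Set.ncard {u | (e' u).2 = i} = c + 1 := by
      intro i
      have : {u | (e' u).2 = i} = (fun a : Fin (c + 1) => e'.symm (a, i)) '' Set.univ := by
        ext u
        simp only [Set.mem_ofPred_eq, Set.image_univ, Set.mem_range]
        constructor
        · intro h
          refine ⟨(e' u).1, ?_⟩
          rw [← h]
          simp
        · rintro ⟨a, rfl⟩
          simp
      rw [this, Set.ncard_image_of_injective, Set.ncard_univ]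
      · simp
      · intro a b hab
        simpa using hab
    intro i i'
    rw [hc, hc]
    omega
  · intro v
    exact ctr_irrefl j s _
  · rintro ⟨v, hv, ha⟩
    exact ctr_path j s ⟨fun i => e.symm (v i), e.symm.injective.comp hv, ha⟩
  · rintro T ⟨part, -, hT⟩
    have hTe : T = fun u v => part u < part v := by
      funext u v; exact propext (hT u v)
    have h1 := turan_arcs _ _ part
    rw [← hTe] at h1
    have h2 := ctr_arcs j s
    have h3 : numArcs (fun u v => Ctr j s (e.symm u) (e.symm v)) = numArcs (Ctr j s) := by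
      rw [numArcs_eq_sum, numArcs_eq_sum]
      refine Fintype.sum_equiv e.symm _ _ fun x => ?_
      refine Fintype.sum_equiv e.symm _ _ fun y => ?_
      rfl
    rw [h3]
    by_contra hcon
    push Not at hcon
    have hj0 : 0 < j := by omega
    have h4 : (c + 1) * (2 * j) * ((c + 1) * (2 * j)) + 2 * (2 * j) * numArcs (Ctr j s)
        ≤ 2 * j * ((c + 1) * (2 * j) * ((c + 1) * (2 * j))) := by
      refine le_trans ?_ h1
      have := Nat.mul_le_mul_left (2 * (2 * j)) hcon
      omega
    have h5 : (2 * j) * ((c + 1) * (c + 1) * (2 * j) + 2 * numArcs (Ctr j s))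
        ≤ (2 * j) * ((c + 1) * (2 * j) * ((c + 1) * (2 * j))) := by
      calc _ = (c + 1) * (2 * j) * ((c + 1) * (2 * j)) + 2 * (2 * j) * numArcs (Ctr j s) := by ring
        _ ≤ _ := h4
    have h6 := Nat.le_of_mul_le_mul_left h5 (by omega)
    -- h2 : 2 * arcs + 2 j + s² j = 2 j² + 2 j² s + s² j²
    have h7 : (c + 1) * (c + 1) * (2 * j) + (2 * (j * j) + 2 * (j * j * s) + s * s * (j * j))
        ≤ (c + 1) * (2 * j) * ((c + 1) * (2 * j)) + 2 * j + s * s * j := by
      omega
    have h8 : j * (2 * (c + 1) * (c + 1) + (2 * j + 2 * (j * s) + s * s * j))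
        ≤ j * ((c + 1) * (c + 1) * (4 * j) + 2 + s * s) := by
      calc _ = (c + 1) * (c + 1) * (2 * j) + (2 * (j * j) + 2 * (j * j * s) + s * s * (j * j)) := by ring
        _ ≤ _ := h7
        _ = _ := by ring
    have h9 := Nat.le_of_mul_le_mul_left h8 hj0
    rw [hs] at h9
    have h10 : 2 * (c + 1) * (c + 1) + (2 * j + 2 * (j * (2 * c + 1)) + (2 * c + 1) * (2 * c + 1) * j)
        = (c + 1) * (c + 1) * (4 * j) + j + 2 * (c + 1) * (c + 1) := by ring
    rw [h10] at h9
    have h11 : j + 2 * (c + 1) * (c + 1) ≤ 2 + (2 * c + 1) * (2 * c + 1) := by omega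
    rw [hj] at h11
    nlinarith

end Pool.Agent.Results.MP_81ec8a_co.NoLinearThreshold
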